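import Pool.Agent.CYE.StmtsB
import Pool.Agent.CYE.StmtsC

/-!
# Squad CYE, row GDC: most classes have good cubes
-/

set_option autoImplicit false

open Polynomial IsLocalRing

namespace Pool.Agent.CYE.H15

open Pool.Agent.CYE

variable {ι : Type} [Fintype ι] [DecidableEq ι] {q : ι → ℕ}

theorem cast_ne [∀ i, Fact (q i).Prime] (hq : Function.Injective q) {i j : ι} (h : j ≠ i) :
    (q i : ZMod (q j)) ≠ 0 := by
  intro h0
  rw [ZMod.natCast_eq_zero_iff] at h0
  have h1 := (Nat.prime_dvd_prime_iff_eq (Fact.out : (q j).Prime) (Fact.out : (q i).Prime)).1 h0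
  exact h (hq h1)

theorem fr_inj [∀ i, Fact (q i).Prime] (hq : Function.Injective q) (i : ι) :
    Function.Injective (fr (q := q) i) := by
  intro b b' h
  funext j
  have h1 := congrFun h j
  unfold fr at h1
  by_cases hj : j = i
  · simpa only [if_pos hj] using h1
  · simp only [if_neg hj] at h1
    exact mul_left_cancel₀ (cast_ne hq hj) h1

theorem sh_inj (i : ι) (s : Pt q) : Function.Injective (sh i s) := by
  intro b b' h
  funext j
  have h1 := congrFun h j
  unfold sh at h1
  by_cases hj : j = i
  · simp only [if_pos hj] at h1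
    exact add_right_cancel h1
  · simpa only [if_neg hj] using h1

theorem cube [∀ i, Fact (q i).Prime] (hq : Function.Injective q) (P : Pt q → Prop)
    [DecidablePred P] : ∀ (T : List (ι × Bool)), (T.map Prod.fst).Nodup → ∀ (s : Pt q)
    (S : Finset (Pt q)), (∀ b ∈ S, (∀ i, b i ≠ 0) ∧ (∀ i, (i, false) ∈ T → b i + s i ≠ 0) ∧
      ¬ Vx P T b s) → S.card ≤ 2 ^ T.length * ((Un q).filter fun b => ¬ P b).card
  | [], _, s, S, h => by
    rw [List.length_nil, pow_zero, one_mul]
    apply Finset.card_le_card
    intro b hb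
    obtain ⟨h1, _, h3⟩ := h b hb
    exact Finset.mem_filter.2 ⟨Finset.mem_filter.2 ⟨Finset.mem_univ _, h1⟩, h3⟩
  | (i, true) :: t, hT, s, S, h => by
    classical
    rw [List.map_cons, List.nodup_cons] at hT
    have key : S = S.filter (fun b => ¬ Vx P t (fr i b) (fr i s)) ∪
        S.filter (fun b => ¬ Vx P t b s) := by
      ext b
      rw [Finset.mem_union, Finset.mem_filter, Finset.mem_filter]
      constructor
      · intro hb
        by_cases h1 : Vx P t (fr i b) (fr i s)
        · exact Or.inr ⟨hb, fun h2 => (h b hb).2.2 ⟨h1, h2⟩⟩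
        · exact Or.inl ⟨hb, h1⟩
      · rintro (h1 | h1) <;> exact h1.1
    have c1 := cube hq P t hT.2 (fr i s)
      ((S.filter (fun b => ¬ Vx P t (fr i b) (fr i s))).image (fr i)) (by
        intro b' hb'
        obtain ⟨b, hb, rfl⟩ := Finset.mem_image.1 hb'
        obtain ⟨hbS, hb2⟩ := Finset.mem_filter.1 hb
        obtain ⟨g1, g2, _⟩ := h b hbS
        refine ⟨fun j => ?_, fun j hj => ?_, hb2⟩
        · unfold fr
          by_cases hj : j = i
          · rw [if_pos hj]; exact g1 j
          · rw [if_neg hj]; exact mul_ne_zero (cast_ne hq hj) (g1 j)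
        · have g3 := g2 j (List.mem_cons_of_mem _ hj)
          unfold fr
          by_cases hj : j = i
          · rw [if_pos hj, if_pos hj]; exact g3
          · rw [if_neg hj, if_neg hj, ← mul_add]; exact mul_ne_zero (cast_ne hq hj) g3)
    rw [Finset.card_image_of_injective _ (fr_inj hq i)] at c1
    have c2 := cube hq P t hT.2 s (S.filter (fun b => ¬ Vx P t b s)) (by
        intro b hb
        obtain ⟨hbS, hb2⟩ := Finset.mem_filter.1 hb
        obtain ⟨g1, g2, _⟩ := h b hbS
        exact ⟨g1, fun j hj => g2 j (List.mem_cons_of_mem _ hj), hb2⟩)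
    rw [key, List.length_cons, pow_succ]
    refine (Finset.card_union_le _ _).trans ?_
    calc _ ≤ 2 ^ t.length * ((Un q).filter fun b => ¬ P b).card +
          2 ^ t.length * ((Un q).filter fun b => ¬ P b).card := add_le_add c1 c2
      _ = _ := by ring
  | (i, false) :: t, hT, s, S, h => by
    classical
    rw [List.map_cons, List.nodup_cons] at hT
    have key : S = S.filter (fun b => ¬ Vx P t (sh i s b) s) ∪
        S.filter (fun b => ¬ Vx P t b s) := by
      ext b
      rw [Finset.mem_union, Finset.mem_filter, Finset.mem_filter]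
      constructor
      · intro hb
        by_cases h1 : Vx P t (sh i s b) s
        · exact Or.inr ⟨hb, fun h2 => (h b hb).2.2 ⟨h1, h2⟩⟩
        · exact Or.inl ⟨hb, h1⟩
      · rintro (h1 | h1) <;> exact h1.1
    have c1 := cube hq P t hT.2 s
      ((S.filter (fun b => ¬ Vx P t (sh i s b) s)).image (sh i s)) (by
        intro b' hb'
        obtain ⟨b, hb, rfl⟩ := Finset.mem_image.1 hb'
        obtain ⟨hbS, hb2⟩ := Finset.mem_filter.1 hb
        obtain ⟨g1, g2, _⟩ := h b hbS
        refine ⟨fun j => ?_, fun j hj => ?_, hb2⟩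
        · unfold sh
          by_cases hj : j = i
          · rw [if_pos hj, hj]; exact g2 i (List.mem_cons_self ..)
          · rw [if_neg hj]; exact g1 j
        · have g3 := g2 j (List.mem_cons_of_mem _ hj)
          have hji : j ≠ i := by
            rintro rfl
            exact hT.1 (List.mem_map.2 ⟨(j, false), hj, rfl⟩)
          unfold sh
          rw [if_neg hji]
          exact g3)
    rw [Finset.card_image_of_injective _ (sh_inj i s)] at c1
    have c2 := cube hq P t hT.2 s (S.filter (fun b => ¬ Vx P t b s)) (by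
        intro b hb
        obtain ⟨hbS, hb2⟩ := Finset.mem_filter.1 hb
        obtain ⟨g1, g2, _⟩ := h b hbS
        exact ⟨g1, fun j hj => g2 j (List.mem_cons_of_mem _ hj), hb2⟩)
    rw [key, List.length_cons, pow_succ]
    refine (Finset.card_union_le _ _).trans ?_
    calc _ ≤ 2 ^ t.length * ((Un q).filter fun b => ¬ P b).card +
          2 ^ t.length * ((Un q).filter fun b => ¬ P b).card := add_le_add c1 c2
      _ = _ := by ring

/-- GDC -/
theorem gdc (hC : CjmStmt) : GdcStmt := by
  intro ι _ _ q _ p m g h L _ a α hS T hT s S J hSb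
  have h1 := (hC ι q p m g h L a α hS).2 J
  have h2 := cube hS.inj (fun v => jm m (ev α v) + jm m (ev α v)⁻¹ + 1 ≤ J) T hT s S hSb
  calc J * S.card ≤ J * (2 ^ T.length *
        ((Un q).filter fun b => ¬ jm m (ev α b) + jm m (ev α b)⁻¹ + 1 ≤ J).card) :=
        Nat.mul_le_mul_left _ h2
    _ = 2 ^ T.length * (J *
        ((Un q).filter fun b => ¬ jm m (ev α b) + jm m (ev α b)⁻¹ + 1 ≤ J).card) := by ring
    _ ≤ 2 ^ T.length * (2 * m.totient) := Nat.mul_le_mul_left _ h1

end Pool.Agent.CYE.H15
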